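import Pool.Agent.Work.MP_a1ab50_an.T.Up
import Pool.Agent.Work.MP_a1ab50_an.T.Sharp

set_option autoImplicit false

namespace Pool.Agent.Work.MP_a1ab50_an.Parked.Threshold

open Pool.Agent.Work.MP_a1ab50_an.T
open scoped NNReal

/-- The sharp smoothness threshold for absolute summability in `n` variables. -/
theorem result (n r : ℕ) (β : ℝ≥0) (hβ : β ≤ 1) :
    List.TFAE [(n : ℝ) - 1 ≤ 2 * ((r : ℝ) + (β : ℝ)),
      ∀ P Q : MvPolynomial (Fin n) ℝ, IsRelPrime P Q → MvPolynomial.constantCoeff Q ≠ 0 →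
        Extends r β P Q → AbsSummable P Q,
      ∀ P Q : MvPolynomial (Fin n) ℝ, IsRelPrime P Q → MvPolynomial.constantCoeff Q ≠ 0 →
        {z : Fin n → ℂ | (∀ i, ‖z i‖ = 1) ∧ MvPolynomial.aeval z P = 0 ∧
          MvPolynomial.aeval z Q = 0}.Finite →
        Extends r β P Q → AbsSummable P Q] := by
  tfae_have 1 → 2 := fun h _ _ => summable_of_ext hβ h
  tfae_have 2 → 3 := fun h P Q h1 h2 _ => h P Q h1 h2
  tfae_have 3 → 1 := fun h => le_of_not_gt fun h0 =>
    have ⟨P, Q, h1, h2, h3, h4, h5⟩ := exists_ex hβ h0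
    h5 (h P Q h1 h2 h3 h4)
  tfae_finish

end Pool.Agent.Work.MP_a1ab50_an.Parked.Threshold
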